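import Pool.Agent.N641.Split.Defs

set_option autoImplicit false

namespace Pool.Agent.N641.Split

open Set Cardinal Filter

/-- combinatorial form of the splitting property -/
def Good (Y : Set ℝ) : Prop := ∀ O : ℕ → Set ℝ, (∀ n, IsOpen (O n)) →
  (∀ F : Set ℝ, F.Finite → F ⊆ Y → {n | F ⊆ O n}.Infinite) →
  ∃ T : Set ℕ, ∀ x ∈ Y, {n | n ∈ T ∧ x ∈ O n}.Infinite ∧ {n | n ∉ T ∧ x ∈ O n}.Infinite

/-- an infinite set of natural numbers can be split -/
theorem split_infinite {N : Set ℕ} (hN : N.Infinite) :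
    ∃ T : Set ℕ, (N ∩ T).Infinite ∧ (N \ T).Infinite := by
  classical
  let e := Nat.nth (· ∈ N)
  have he : StrictMono e := Nat.nth_strictMono hN
  have hm : ∀ n, e n ∈ N := fun n => Nat.nth_mem_of_infinite hN n
  refine ⟨range fun n => e (2 * n), ?_, ?_⟩
  · refine (infinite_range_of_injective (f := fun n => e (2 * n)) ?_).mono ?_
    · intro a b h
      have := he.injective h
      omega
    · rintro _ ⟨n, rfl⟩
      exact ⟨hm _, ⟨n, rfl⟩⟩
  · refine (infinite_range_of_injective (f := fun n => e (2 * n + 1)) ?_).mono ?_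
    · intro a b h
      have := he.injective h
      omega
    · rintro _ ⟨n, rfl⟩
      refine ⟨hm _, ?_⟩
      rintro ⟨m, h⟩
      have := he.injective h
      omega

theorem good_of_splits {Y : Set ℝ} (h : Splits Y) : Good Y := by
  intro O hO hc
  by_cases hN : {n | Y ⊆ O n}.Infinite
  · obtain ⟨T, h1, h2⟩ := split_infinite hN
    refine ⟨T, fun x hx => ⟨h1.mono ?_, h2.mono ?_⟩⟩
    · rintro n ⟨hn, hT⟩
      exact ⟨hT, hn hx⟩
    · rintro n ⟨hn, hT⟩
      exact ⟨hT, hn hx⟩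
  · rw [not_infinite] at hN
    set U : Set (Set ℝ) := (fun n => Y ∩ O n) '' {n | ¬ Y ⊆ O n} with hU
    have key : ∀ F : Set ℝ, F.Finite → F ⊆ Y → ∃ n, ¬ Y ⊆ O n ∧ F ⊆ O n := by
      intro F hF hFY
      obtain ⟨n, h1, h2⟩ := ((hc F hF hFY).diff hN).nonempty
      exact ⟨n, h2, h1⟩
    have hcov : IsOmega Y U := by
      refine ⟨⟨?_, ?_, ?_⟩, ?_⟩
      · rintro _ ⟨n, -, rfl⟩
        exact ⟨O n, hO n, rfl⟩
      · apply Subset.antisymm
        · rintro x ⟨_, ⟨n, -, rfl⟩, hx⟩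
          exact hx.1
        · intro x hx
          obtain ⟨n, h1, h2⟩ := key {x} (finite_singleton x) (singleton_subset_iff.2 hx)
          exact ⟨_, ⟨n, h1, rfl⟩, hx, h2 rfl⟩
      · rintro ⟨n, h1, h2⟩
        exact h1 fun x hx => (h2.symm.subset hx).2
      · intro F hF hFY
        obtain ⟨n, h1, h2⟩ := key F hF hFY
        exact ⟨_, ⟨n, h1, rfl⟩, subset_inter hFY h2⟩
    obtain ⟨V, W, hVW, hd, ⟨V', hV', hlV⟩, ⟨W', hW', hlW⟩⟩ := h U hcov
    refine ⟨{n | Y ∩ O n ∈ V}, fun x hx => ⟨?_, ?_⟩⟩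
    · refine Set.Infinite.of_image (fun n => Y ∩ O n) ((hlV.2 x hx).mono ?_)
      rintro S ⟨hS, hxS⟩
      have hSU : S ∈ U := hVW ▸ Or.inl (hV' hS)
      obtain ⟨n, hn, rfl⟩ := hSU
      exact ⟨n, ⟨hV' hS, hxS.2⟩, rfl⟩
    · refine Set.Infinite.of_image (fun n => Y ∩ O n) ((hlW.2 x hx).mono ?_)
      rintro S ⟨hS, hxS⟩
      have hSU : S ∈ U := hVW ▸ Or.inr (hW' hS)
      obtain ⟨n, hn, rfl⟩ := hSU
      exact ⟨n, ⟨fun h => hd.le_bot ⟨h, hW' hS⟩, hxS.2⟩, rfl⟩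

/-- countable omega-subcovers -/
theorem countable_sub {X : Set ℝ} {U : Set (Set ℝ)} (hU : IsOmega X U) :
    ∃ C ⊆ U, C.Countable ∧ ∀ F : Set ℝ, F.Finite → F ⊆ X → ∃ V ∈ C, F ⊆ V := by
  classical
  choose! O hO hV using hU.1.1
  have h1 : ∀ k : ℕ, ∃ T : Set U, T.Countable ∧
      ⋃ V ∈ T, {f : Fin k → ℝ | ∀ i, f i ∈ O V.1} = ⋃ V : U, {f : Fin k → ℝ | ∀ i, f i ∈ O V.1} := by
    intro k
    refine TopologicalSpace.isOpen_iUnion_countable _ fun V => ?_
    have : {f : Fin k → ℝ | ∀ i, f i ∈ O V.1} = ⋂ i, (fun f : Fin k → ℝ => f i) ⁻¹' O V.1 := by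
      ext f
      simp
    rw [this]
    exact isOpen_iInter_of_finite fun i => (hO V.1 V.2).preimage (continuous_apply i)
  choose T hT hT2 using h1
  refine ⟨⋃ k, Subtype.val '' T k, ?_, ?_, ?_⟩
  · refine iUnion_subset fun k => ?_
    rintro _ ⟨V, -, rfl⟩
    exact V.2
  · exact countable_iUnion fun k => (hT k).image _
  · intro F hF hFX
    obtain ⟨V, hVU, hFV⟩ := hU.2 F hF hFX
    haveI := hF.fintype
    let e := (Fintype.equivFin F).symm
    have hf : (fun i => (e i : ℝ)) ∈ ⋃ V : U, {f : Fin (Fintype.card F) → ℝ | ∀ i, f i ∈ O V.1} := by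
      rw [mem_iUnion]
      refine ⟨⟨V, hVU⟩, fun i => ?_⟩
      have := hFV (e i).2
      rw [hV V hVU] at this
      exact this.2
    rw [← hT2] at hf
    obtain ⟨V', hV'T, hV'⟩ := mem_iUnion₂.1 hf
    refine ⟨V'.1, mem_iUnion.2 ⟨_, ⟨V', hV'T, rfl⟩⟩, fun x hx => ?_⟩
    rw [hV V'.1 V'.2]
    refine ⟨hFX hx, ?_⟩
    have := hV' (e.symm ⟨x, hx⟩)
    simpa using this

theorem splits_of_good {X : Set ℝ} (h : Good X) : Splits X := by
  classical
  intro U hU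
  obtain ⟨C, hCU, hC, hC2⟩ := countable_sub hU
  have hne : ∀ V ∈ U, ∃ y ∈ X, y ∉ V := by
    intro V hV
    by_contra hcon
    push Not at hcon
    have : V = X := by
      apply Subset.antisymm
      · intro x hx
        rw [← hU.1.2.1]
        exact ⟨V, hV, hx⟩
      · exact hcon
    exact hU.1.2.2 (this ▸ hV)
  choose! y hyX hyV using hne
  have hinf : ∀ F : Set ℝ, F.Finite → F ⊆ X → {V ∈ C | F ⊆ V}.Infinite := by
    intro F hF hFX hfin
    obtain ⟨V, hVC, hV⟩ := hC2 (F ∪ y '' {V ∈ C | F ⊆ V}) (hF.union (hfin.image y))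
      (union_subset hFX (by
        rintro _ ⟨V, hV, rfl⟩
        exact hyX V (hCU hV.1)))
    have h1 : V ∈ {V ∈ C | F ⊆ V} := ⟨hVC, subset_union_left.trans hV⟩
    exact hyV V (hCU hVC) (hV (Or.inr ⟨V, h1, rfl⟩))
  have hCinf : C.Infinite := (hinf ∅ finite_empty (empty_subset _)).mono fun V hV => hV.1
  haveI : Countable C := hC.to_subtype
  haveI : Infinite C := hCinf.to_subtype
  obtain ⟨e⟩ : Nonempty (ℕ ≃ C) := nonempty_equiv_of_countable
  choose! O hO hV using hU.1.1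
  have hmem : ∀ n, (e n).1 ∈ U := fun n => hCU (e n).2
  obtain ⟨T, hT⟩ := h (fun n => O (e n).1) (fun n => hO _ (hmem n)) (by
    intro F hF hFX
    refine Set.Infinite.of_image (fun n => (e n).1) ((hinf F hF hFX).mono ?_)
    rintro V ⟨hVC, hFV⟩
    refine ⟨e.symm ⟨V, hVC⟩, ?_, by simp⟩
    simp only [mem_setOf_eq, Equiv.apply_symm_apply]
    intro x hx
    have := hFV hx
    rw [hV V (hCU hVC)] at this
    exact this.2)
  have hlarge : ∀ S : Set ℕ, (∀ x ∈ X, {n | n ∈ S ∧ x ∈ O (e n).1}.Infinite) →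
      IsLarge X ((fun n => (e n).1) '' S) := by
    intro S hS
    have hmemx : ∀ x ∈ X, ∀ n, x ∈ O (e n).1 → x ∈ (e n).1 := by
      intro x hx n hn
      rw [hV _ (hmem n)]
      exact ⟨hx, hn⟩
    refine ⟨⟨?_, ?_, ?_⟩, ?_⟩
    · rintro _ ⟨n, -, rfl⟩
      exact hU.1.1 _ (hmem n)
    · apply Subset.antisymm
      · rintro x ⟨_, ⟨n, -, rfl⟩, hx⟩
        rw [← hU.1.2.1]
        exact ⟨_, hmem n, hx⟩
      · intro x hx
        obtain ⟨n, hn, hxn⟩ := (hS x hx).nonempty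
        exact ⟨_, ⟨n, hn, rfl⟩, hmemx x hx n hxn⟩
    · rintro ⟨n, -, hn⟩
      exact hU.1.2.2 (hn ▸ hmem n)
    · intro x hx
      have hinj : Function.Injective fun n => (e n).1 :=
        Subtype.val_injective.comp e.injective
      refine ((hS x hx).image hinj.injOn).mono ?_
      rintro _ ⟨n, ⟨hn, hxn⟩, rfl⟩
      exact ⟨⟨n, hn, rfl⟩, hmemx x hx n hxn⟩
  refine ⟨(fun n => (e n).1) '' T, U \ (fun n => (e n).1) '' T, ?_, disjoint_sdiff_right,
    ⟨_, Subset.rfl, hlarge T fun x hx => (hT x hx).1⟩,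
    ⟨(fun n => (e n).1) '' Tᶜ, ?_, hlarge Tᶜ fun x hx => (hT x hx).2⟩⟩
  · rw [union_diff_cancel]
    rintro _ ⟨n, -, rfl⟩
    exact hmem n
  · rintro _ ⟨n, hn, rfl⟩
    refine ⟨hmem n, ?_⟩
    rintro ⟨m, hm, hmn⟩
    have : m = n := e.injective (Subtype.val_injective hmn)
    exact hn (this ▸ hm)

theorem splits_iff {X : Set ℝ} : Splits X ↔ Good X := ⟨good_of_splits, splits_of_good⟩

end Pool.Agent.N641.Split
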