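import Pool.Agent.N641.Split.Ultra

set_option autoImplicit false

namespace Pool.Agent.N641.Split

open Set Cardinal Filter

/-! ### the upper bound -/

open Classical in
/-- an embedding of the subsets of the natural numbers into the Cantor set -/
noncomputable def emb (b : Set ℕ) : ℝ :=
  (cantorSetHomeomorphNatToBool.symm (fun n => decide (n ∈ b))).1

theorem emb_inj : Function.Injective emb := by
  classical
  intro a b h
  have h1 := cantorSetHomeomorphNatToBool.symm.injective (Subtype.val_injective h)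
  ext n
  have := congrFun h1 n
  simpa using this

/-- the set of the codes of the sets containing `n` is relatively open -/
theorem exists_open (n : ℕ) : ∃ O : Set ℝ, IsOpen O ∧ ∀ b : Set ℕ, emb b ∈ O ↔ n ∈ b := by
  classical
  have h1 : IsOpen {z : cantorSet | cantorSetHomeomorphNatToBool z n = true} := by
    have hc : Continuous fun z : cantorSet => cantorSetHomeomorphNatToBool z n :=
      (continuous_apply n).comp cantorSetHomeomorphNatToBool.continuous
    exact (isOpen_discrete ({true} : Set Bool)).preimage hc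
  obtain ⟨O, hO, h2⟩ := isOpen_induced_iff.1 h1
  refine ⟨O, hO, fun b => ?_⟩
  have h3 : emb b ∈ O ↔ cantorSetHomeomorphNatToBool.symm (fun n => decide (n ∈ b)) ∈
      (Subtype.val ⁻¹' O : Set cantorSet) := Iff.rfl
  rw [h3, h2]
  simp

/-- the codes of a base of an ultrafilter cannot be split -/
theorem not_good_base {W : Ultrafilter ℕ} {B : Set (Set ℕ)} (hW : ∀ n : ℕ, {n} ∉ W)
    (hB : IsBase W B) : ¬ Good (emb '' B) := by
  intro h
  choose O hO hmem using exists_open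
  obtain ⟨T, hT⟩ := h O hO (by
    intro F hF hFB
    obtain ⟨F', hF', rfl⟩ := subset_image_iff.1 hFB
    have hfin : F'.Finite := hF.of_finite_image emb_inj.injOn
    have h1 : (⋂₀ F') ∈ W := (Filter.sInter_mem hfin).2 fun b hb => hB.1 b (hF' hb)
    refine (inf_of_mem hW h1).mono fun n hn => ?_
    rintro _ ⟨b, hb, rfl⟩
    exact (hmem n b).2 (hn b hb))
  have key : ∀ S : Set ℕ, S ∈ W → ∃ b ∈ B, {n | n ∉ S ∧ emb b ∈ O n} = ∅ := by
    intro S hS
    obtain ⟨b, hb, hbS⟩ := hB.2 S hS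
    refine ⟨b, hb, ?_⟩
    ext n
    simp only [mem_empty_iff_false, iff_false]
    rintro ⟨h1, h2⟩
    exact h1 (hbS ((hmem n b).1 h2))
  by_cases hTW : T ∈ W
  · obtain ⟨b, hb, h1⟩ := key T hTW
    exact (hT _ ⟨b, hb, rfl⟩).2 (by rw [h1]; exact finite_empty)
  · obtain ⟨b, hb, h1⟩ := key Tᶜ (Ultrafilter.compl_mem_iff_notMem.2 hTW)
    refine (hT _ ⟨b, hb, rfl⟩).1 ?_
    have h2 : {n | n ∈ T ∧ emb b ∈ O n} = {n | n ∉ Tᶜ ∧ emb b ∈ O n} := by
      ext n
      simp
    rw [h2, h1]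
    exact finite_empty

theorem add_le_cof : addSplit ≤ ultraNumber.ord.cof := by
  obtain ⟨W, B, hW, hB, hBc⟩ := exists_base
  obtain ⟨s, hs, hsc⟩ := Order.exists_cof_eq ultraNumber.ord.ToType
  rw [Ordinal.cof_toType] at hsc
  have h1 : #B = #(ultraNumber.ord.ToType) := by
    rw [hBc, mk_toType, card_ord]
  obtain ⟨e⟩ := Cardinal.eq.1 h1
  let X : ultraNumber.ord.ToType → Set ℝ := fun i => emb '' (Subtype.val '' {b : B | e b < i})
  have hlt : ∀ i, #(X i) < ultraNumber := by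
    intro i
    have h2 : #(X i) ≤ #{b : B | e b < i} := mk_image_le.trans mk_image_le
    have h3 : #{b : B | e b < i} ≤ #(Iio i) := by
      refine mk_le_of_injective (f := fun b : {b : B | e b < i} => (⟨e b.1, b.2⟩ : Iio i)) ?_
      intro a b hab
      have := congrArg Subtype.val hab
      exact Subtype.val_injective (e.injective this)
    exact (h2.trans h3).trans_lt (by
      simpa using mk_Iio_ord_toType i)
  have hun : ⋃₀ (X '' s) = emb '' B := by
    apply Subset.antisymm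
    · rintro x ⟨_, ⟨i, -, rfl⟩, hx⟩
      obtain ⟨_, ⟨b, -, rfl⟩, rfl⟩ := hx
      exact ⟨b, b.2, rfl⟩
    · rintro _ ⟨b, hb, rfl⟩
      have hlim : Order.IsSuccLimit ultraNumber.ord := isSuccLimit_ord aleph0_le_ultra
      have : NoMaxOrder ultraNumber.ord.ToType := by
        rw [← Ordinal.isSuccPrelimit_type_lt_iff, Ordinal.type_toType]
        exact hlim.isSuccPrelimit
      obtain ⟨j, hj⟩ := exists_gt (e ⟨b, hb⟩)
      obtain ⟨i, hi, hji⟩ := hs j
      exact ⟨X i, ⟨i, hi, rfl⟩, ⟨b, ⟨⟨b, hb⟩, hj.trans_le hji, rfl⟩, rfl⟩⟩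
  have h4 : addSplit ≤ #(X '' s : Set (Set ℝ)) := by
    refine csInf_le' ⟨X '' s, rfl, ?_, ?_⟩
    · rintro _ ⟨i, -, rfl⟩
      exact splits_of_good (good_of_lt (hlt i))
    · rw [hun]
      exact fun h => not_good_base hW hB (good_of_splits h)
  exact h4.trans (mk_image_le.trans hsc.le)

/-! ### countable unions -/

theorem good_union {Y : ℕ → Set ℝ} (hY : ∀ m, Good (Y m)) : Good (⋃ m, Y m) := by
  classical
  intro O hO hc
  obtain ⟨W, hW, hAW, hFW⟩ := exists_ultra (centered_of hc)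
  have hAW' : ∀ x ∈ ⋃ m, Y m, {n | x ∈ O n} ∈ W := fun x hx => hAW ⟨x, hx⟩
  -- the basic step
  have step : ∀ (m : ℕ) (T : {T : Set ℕ // T ∈ W}), ∃ T' : {T : Set ℕ // T ∈ W}, T'.1 ⊆ T.1 ∧
      ∀ x ∈ Y m, ({n | x ∈ O n} ∩ (T.1 \ T'.1)).Infinite := by
    intro m T
    obtain ⟨S, hS⟩ := hY m (fun n => if n ∈ T.1 then O n else ∅) (by
      intro n
      by_cases h : n ∈ T.1
      · rw [if_pos h]
        exact hO n
      · rw [if_neg h]
        exact isOpen_empty) (by
      intro F hF hFY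
      by_cases hne : F = ∅
      · subst hne
        simpa using infinite_univ
      · have h1 : (⋂₀ ((fun x => {n | x ∈ O n}) '' F)) ∈ W := by
          refine (Filter.sInter_mem (hF.image _)).2 ?_
          rintro _ ⟨x, hx, rfl⟩
          exact hAW' x (mem_iUnion.2 ⟨m, hFY hx⟩)
        refine (inf_of_mem hW (inter_mem h1 T.2)).mono ?_
        rintro n ⟨h2, h3⟩
        intro x hx
        simp only [if_pos h3]
        exact h2 _ ⟨x, hx, rfl⟩)
    have h4 : ∀ x n, (x ∈ if n ∈ T.1 then O n else ∅) ↔ n ∈ T.1 ∧ x ∈ O n := by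
      intro x n
      by_cases h : n ∈ T.1 <;> simp [h]
    by_cases hSW : S ∈ W
    · refine ⟨⟨T.1 ∩ S, inter_mem T.2 hSW⟩, inter_subset_left, fun x hx => ?_⟩
      refine ((hS x hx).2).mono ?_
      rintro n ⟨h1, h2⟩
      rw [h4] at h2
      exact ⟨h2.2, h2.1, fun h => h1 h.2⟩
    · refine ⟨⟨T.1 \ S, inter_mem T.2 (Ultrafilter.compl_mem_iff_notMem.2 hSW)⟩,
        sdiff_subset, fun x hx => ?_⟩
      refine ((hS x hx).1).mono ?_
      rintro n ⟨h1, h2⟩
      rw [h4] at h2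
      exact ⟨h2.2, h2.1, fun h => h.2 h1⟩
  choose f hf1 hf2 using step
  let T : ℕ → {T : Set ℕ // T ∈ W} := fun k =>
    Nat.rec (⟨univ, univ_mem⟩ : {T : Set ℕ // T ∈ W}) (fun k S => f (k / 2) S) k
  have hT : ∀ k, T (k + 1) = f (k / 2) (T k) := fun k => rfl
  have hmono : ∀ k, (T (k + 1)).1 ⊆ (T k).1 := fun k => by
    rw [hT]
    exact hf1 _ _
  have hanti : Antitone fun k => (T k).1 := antitone_nat_of_succ_le hmono
  refine ⟨⋃ k, ((T (2 * k)).1 \ (T (2 * k + 1)).1), fun x hx => ?_⟩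
  obtain ⟨m, hm⟩ := mem_iUnion.1 hx
  constructor
  · have h1 := hf2 ((2 * m) / 2) (T (2 * m)) x (by rwa [show 2 * m / 2 = m by omega])
    rw [← hT] at h1
    refine h1.mono ?_
    rintro n ⟨h2, h3⟩
    exact ⟨mem_iUnion.2 ⟨m, h3⟩, h2⟩
  · have h1 := hf2 ((2 * m + 1) / 2) (T (2 * m + 1)) x (by rwa [show (2 * m + 1) / 2 = m by omega])
    rw [← hT] at h1
    refine h1.mono ?_
    rintro n ⟨h2, h3, h4⟩
    refine ⟨fun h => ?_, h2⟩
    obtain ⟨k, h5, h6⟩ := mem_iUnion.1 h
    rcases lt_or_ge m k with h7 | h7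
    · exact h4 (hanti (show 2 * m + 1 + 1 ≤ 2 * k by omega) h5)
    · exact h6 (hanti (show 2 * k + 1 ≤ 2 * m + 1 by omega) h3)

theorem addSplit_mem : ∃ F : Set (Set ℝ), #F = addSplit ∧ (∀ X ∈ F, Splits X) ∧
    ¬ Splits (⋃₀ F) := by
  have h : {κ | ∃ F : Set (Set ℝ), #F = κ ∧ (∀ X ∈ F, Splits X) ∧ ¬ Splits (⋃₀ F)}.Nonempty := by
    obtain ⟨W, B, hW, hB, hBc⟩ := exists_base
    refine ⟨_, (fun x => {x}) '' (emb '' B), rfl, ?_, ?_⟩
    · rintro _ ⟨x, -, rfl⟩
      refine splits_of_good (good_of_lt ?_)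
      refine lt_of_lt_of_le ?_ aleph0_le_ultra
      simp
    · have : ⋃₀ ((fun x => ({x} : Set ℝ)) '' (emb '' B)) = emb '' B := by
        ext x
        simp [eq_comm]
      rw [this]
      exact fun h => not_good_base hW hB (good_of_splits h)
  exact csInf_mem h

theorem aleph_one_le_add : ℵ₁ ≤ addSplit := by
  rw [aleph_one_le_iff]
  obtain ⟨F, hF, hS, hn⟩ := addSplit_mem
  rw [← hF]
  by_contra hcon
  rw [not_lt, le_aleph0_iff_set_countable] at hcon
  apply hn
  rcases F.eq_empty_or_nonempty with rfl | hne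
  · rw [sUnion_empty]
    exact splits_of_good fun O _ _ => ⟨∅, fun x hx => absurd hx (notMem_empty x)⟩
  · obtain ⟨Y, rfl⟩ := hcon.exists_eq_range hne
    rw [sUnion_range]
    exact splits_of_good (good_union fun m => good_of_splits (hS _ ⟨m, rfl⟩))

end Pool.Agent.N641.Split
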