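import Mathlib

set_option autoImplicit false

/-!
# Splitting of omega-covers of sets of reals: definitions
-/

namespace Pool.Agent.N641.Split

open Set Cardinal

/-- `V` is an open subset of the subspace `X` of the real line. -/
def OpenIn (X V : Set ℝ) : Prop := ∃ O : Set ℝ, IsOpen O ∧ V = X ∩ O

/-- `U` is an open cover of `X`; `X` itself is not allowed as a member. -/
def IsCover (X : Set ℝ) (U : Set (Set ℝ)) : Prop :=
  (∀ V ∈ U, OpenIn X V) ∧ ⋃₀ U = X ∧ X ∉ U

/-- `U` is a large open cover of `X`. -/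
def IsLarge (X : Set ℝ) (U : Set (Set ℝ)) : Prop :=
  IsCover X U ∧ ∀ x ∈ X, {V ∈ U | x ∈ V}.Infinite

/-- `U` is an open omega-cover of `X`. -/
def IsOmega (X : Set ℝ) (U : Set (Set ℝ)) : Prop :=
  IsCover X U ∧ ∀ F : Set ℝ, F.Finite → F ⊆ X → ∃ V ∈ U, F ⊆ V

/-- `X` has the property `Split(Ω, Λ)`. -/
def Splits (X : Set ℝ) : Prop :=
  ∀ U, IsOmega X U → ∃ V W : Set (Set ℝ), V ∪ W = U ∧ Disjoint V W ∧
    (∃ V' ⊆ V, IsLarge X V') ∧ ∃ W' ⊆ W, IsLarge X W'

/-- The additivity number of the family of all sets of reals with `Split(Ω, Λ)`. -/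
noncomputable def addSplit : Cardinal :=
  sInf {κ | ∃ F : Set (Set ℝ), #F = κ ∧ (∀ X ∈ F, Splits X) ∧ ¬ Splits (⋃₀ F)}

/-- `B` is a base of the ultrafilter `W`. -/
def IsBase (W : Ultrafilter ℕ) (B : Set (Set ℕ)) : Prop :=
  (∀ b ∈ B, b ∈ W) ∧ ∀ s ∈ W, ∃ b ∈ B, b ⊆ s

/-- The ultrafilter number: the least cardinality of a base of a nonprincipal ultrafilter on the
natural numbers. -/
noncomputable def ultraNumber : Cardinal :=
  sInf {κ | ∃ (W : Ultrafilter ℕ) (B : Set (Set ℕ)), (∀ n : ℕ, {n} ∉ W) ∧ IsBase W B ∧ #B = κ}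

/-- `G` is a groupwise dense family of infinite sets of natural numbers: it is closed under
infinite almost subsets, and for every partition of the natural numbers into intervals, some
union of infinitely many of these intervals belongs to `G`. -/
structure Groupwise (G : Set (Set ℕ)) : Prop where
  inf : ∀ A ∈ G, A.Infinite
  down : ∀ A ∈ G, ∀ B : Set ℕ, B.Infinite → (B \ A).Finite → B ∈ G
  interval : ∀ p : ℕ → ℕ, StrictMono p → p 0 = 0 →
    ∃ C : Set ℕ, C.Infinite ∧ (⋃ n ∈ C, Ico (p n) (p (n + 1))) ∈ G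

/-- The groupwise density number: the least number of groupwise dense families with empty
intersection. -/
noncomputable def groupNumber : Cardinal :=
  sInf {κ | ∃ 𝒢 : Set (Set (Set ℕ)), #𝒢 = κ ∧ (∀ G ∈ 𝒢, Groupwise G) ∧ ⋂₀ 𝒢 = ∅}

end Pool.Agent.N641.Split
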