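import Pool.Agent.N641.Split.Bounds

set_option autoImplicit false

namespace Pool.Agent.N641.Split

open Set Cardinal Filter

/-- not feeble: for every interval partition some member misses infinitely many intervals -/
def NF {ι : Type} (A : ι → Set ℕ) : Prop := ∀ p : ℕ → ℕ, StrictMono p → p 0 = 0 →
  ∃ i, {n | A i ∩ Ico (p n) (p (n + 1)) = ∅}.Infinite

theorem exists_index {p : ℕ → ℕ} (hp : StrictMono p) {k : ℕ} (hk : p 0 ≤ k) :
    ∃ n, p n ≤ k ∧ k < p (n + 1) := by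
  have hex : ∃ n, k < p (n + 1) := ⟨k, lt_of_lt_of_le (Nat.lt_succ_self k) (hp.id_le (k + 1))⟩
  classical
  refine ⟨Nat.find hex, ?_, Nat.find_spec hex⟩
  rcases Nat.eq_zero_or_pos (Nat.find hex) with h | h
  · rw [h]
    exact hk
  · have := Nat.find_min hex (m := Nat.find hex - 1) (by omega)
    rw [not_lt, Nat.sub_add_cancel h] at this
    exact this

theorem index_unique {p : ℕ → ℕ} (hp : StrictMono p) {k n m : ℕ}
    (h1 : p n ≤ k) (h2 : k < p (n + 1)) (h3 : p m ≤ k) (h4 : k < p (m + 1)) : n = m := by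
  rcases lt_trichotomy n m with h | h | h
  · have := hp.monotone (show n + 1 ≤ m by omega)
    omega
  · exact h
  · have := hp.monotone (show m + 1 ≤ n by omega)
    omega

/-- a sequence meeting the infinite set `b` in all intervals -/
theorem exists_coarse {b : Set ℕ} (hb : b.Infinite) {p : ℕ → ℕ} (hp : StrictMono p) :
    ∃ q : ℕ → ℕ, StrictMono q ∧ q 0 = 0 ∧ ∀ n, (b ∩ Ico (p (q n)) (p (q (n + 1)))).Nonempty := by
  have step : ∀ m : ℕ, ∃ m', m < m' ∧ (b ∩ Ico (p m) (p m')).Nonempty := by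
    intro m
    obtain ⟨k, hk, hmk⟩ := hb.exists_gt (p m)
    refine ⟨max (m + 1) (k + 1), by omega, k, hk, hmk.le, ?_⟩
    have := hp.id_le (max (m + 1) (k + 1))
    simp only [id] at this
    omega
  choose f hf1 hf2 using step
  refine ⟨fun n => f^[n] 0, strictMono_nat_of_lt_succ fun n => ?_, rfl, fun n => ?_⟩
  · simp only [Function.iterate_succ_apply']
    exact hf1 _
  · simp only [Function.iterate_succ_apply']
    exact hf2 _

theorem exists_sparse {S : Set ℕ} (hS : S.Infinite) :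
    ∃ C ⊆ S, C.Infinite ∧ ∀ n ∈ C, ∀ m ∈ C, n < m → n + 1 < m := by
  by_cases h : (S ∩ {n | n % 2 = 0}).Infinite
  · refine ⟨_, inter_subset_left, h, ?_⟩
    rintro n ⟨-, hn⟩ m ⟨-, hm⟩ hnm
    simp only [mem_setOf_eq] at hn hm
    omega
  · refine ⟨S \ {n | n % 2 = 0}, sdiff_subset, ?_, ?_⟩
    · rw [not_infinite] at h
      intro h2
      apply hS
      rw [← inter_union_sdiff S {n | n % 2 = 0}]
      exact h.union h2
    · rintro n ⟨-, hn⟩ m ⟨-, hm⟩ hnm
      simp only [mem_setOf_eq] at hn hm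
      omega

/-- the groupwise dense family attached to a set `b` -/
def Gb {ι : Type} (A : ι → Set ℕ) (b : Set ℕ) : Set (Set ℕ) :=
  {Z | Z.Infinite ∧ ∃ i N, ∀ z ∈ Z, ∀ z' ∈ Z, N ≤ z → z < z' →
    (A i ∩ Ico z z').Nonempty → (b ∩ Ico z z').Nonempty}

theorem groupwise_Gb {ι : Type} {A : ι → Set ℕ} (hA : NF A) {b : Set ℕ} (hb : b.Infinite) :
    Groupwise (Gb A b) := by
  refine ⟨fun Z hZ => hZ.1, ?_, ?_⟩
  · rintro Z ⟨-, i, N, h⟩ B hB hBZ
    obtain ⟨M, hM⟩ := hBZ.bddAbove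
    have hmem : ∀ z ∈ B, M < z → z ∈ Z := by
      intro z hz hMz
      by_contra hzZ
      exact absurd (hM ⟨hz, hzZ⟩) (not_le.2 hMz)
    refine ⟨hB, i, max N (M + 1), fun z hz z' hz' hN hlt => ?_⟩
    exact h z (hmem z hz (by omega)) z' (hmem z' hz' (by omega)) (by omega) hlt
  · intro p hp hp0
    obtain ⟨q, hq, hq0, hqb⟩ := exists_coarse hb hp
    obtain ⟨i, hi⟩ := hA (p ∘ q) (hp.comp hq) (by simp [hq0, hp0])
    obtain ⟨C', hC'S, hC', hC'2⟩ := exists_sparse hi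
    refine ⟨⋃ n ∈ C', Ico (q n) (q (n + 1)), ?_, ?_⟩
    · refine (hC'.image (f := q) hq.injective.injOn).mono ?_
      rintro _ ⟨n, hn, rfl⟩
      exact mem_iUnion₂.2 ⟨n, hn, le_rfl, hq (Nat.lt_succ_self n)⟩
    · have hcov : ∀ z ∈ ⋃ n ∈ ⋃ n ∈ C', Ico (q n) (q (n + 1)), Ico (p n) (p (n + 1)),
          ∃ n ∈ C', p (q n) ≤ z ∧ z < p (q (n + 1)) := by
        intro z hz
        obtain ⟨k, hk, hz1, hz2⟩ := mem_iUnion₂.1 hz
        obtain ⟨n, hn, hk1, hk2⟩ := mem_iUnion₂.1 hk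
        exact ⟨n, hn, (hp.monotone hk1).trans hz1, hz2.trans_le (hp.monotone hk2)⟩
      refine ⟨?_, i, 0, ?_⟩
      · refine (hC'.image (f := p ∘ q) (hp.comp hq).injective.injOn).mono ?_
        rintro _ ⟨n, hn, rfl⟩
        exact mem_iUnion₂.2 ⟨q n, mem_iUnion₂.2 ⟨n, hn, le_rfl, hq (Nat.lt_succ_self n)⟩,
          le_rfl, hp (Nat.lt_succ_self _)⟩
      · intro z hz z' hz' _ hlt hne
        obtain ⟨n, hn, h1, h2⟩ := hcov z hz
        obtain ⟨m, hm, h3, h4⟩ := hcov z' hz'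
        rcases lt_trichotomy n m with h | h | h
        · have h5 := hC'2 n hn m hm h
          obtain ⟨y, hy, hy1, hy2⟩ := hqb (n + 1)
          refine ⟨y, hy, h2.le.trans hy1, hy2.trans_le ?_⟩
          exact (hp.monotone (hq.monotone (show n + 1 + 1 ≤ m by omega))).trans h3
        · subst h
          obtain ⟨y, hy, hy1, hy2⟩ := hne
          have h6 : A i ∩ Ico ((p ∘ q) n) ((p ∘ q) (n + 1)) = ∅ := hC'S hn
          have : y ∈ A i ∩ Ico ((p ∘ q) n) ((p ∘ q) (n + 1)) := ⟨hy, h1.trans hy1, hy2.trans h4⟩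
          rw [h6] at this
          exact absurd this (notMem_empty y)
        · have := hp.monotone (hq.monotone (show m + 1 ≤ n by omega))
          omega

theorem inter_nonempty {𝒢 : Set (Set (Set ℕ))} (h : ∀ G ∈ 𝒢, Groupwise G)
    (hlt : #𝒢 < groupNumber) : (⋂₀ 𝒢).Nonempty := by
  by_contra hcon
  rw [not_nonempty_iff_eq_empty] at hcon
  exact notMem_of_lt_csInf' hlt ⟨𝒢, rfl, h, hcon⟩

/-- the main lemma on groupwise density -/
theorem exists_Z {ι : Type} {A : ι → Set ℕ} (hA : NF A) {W : Ultrafilter ℕ} {B : Set (Set ℕ)}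
    (hW : ∀ n : ℕ, {n} ∉ W) (hB : IsBase W B) (hlt : #B < groupNumber) :
    ∃ z : ℕ → ℕ, StrictMono z ∧ ∀ b ∈ B, ∃ i N, ∀ k, N ≤ k →
      (A i ∩ Ico (z k) (z (k + 1))).Nonempty → (b ∩ Ico (z k) (z (k + 1))).Nonempty := by
  obtain ⟨Z, hZ⟩ := inter_nonempty (𝒢 := Gb A '' B) (by
    rintro _ ⟨b, hb, rfl⟩
    exact groupwise_Gb hA (inf_of_mem hW (hB.1 b hb))) (mk_image_le.trans_lt hlt)
  have hne : B.Nonempty := by
    obtain ⟨b, hb, -⟩ := hB.2 univ univ_mem
    exact ⟨b, hb⟩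
  obtain ⟨b0, hb0⟩ := hne
  have hZi : Z.Infinite := (hZ _ ⟨b0, hb0, rfl⟩).1
  classical
  refine ⟨Nat.nth (· ∈ Z), Nat.nth_strictMono hZi, fun b hb => ?_⟩
  obtain ⟨-, i, N, h⟩ := hZ _ ⟨b, hb, rfl⟩
  refine ⟨i, N, fun k hk => ?_⟩
  exact h _ (Nat.nth_mem_of_infinite hZi k) _ (Nat.nth_mem_of_infinite hZi (k + 1))
    (hk.trans ((Nat.nth_strictMono hZi).id_le k)) (Nat.nth_strictMono hZi (Nat.lt_succ_self k))

/-- the collapse of a set along a partition -/
def col (z : ℕ → ℕ) (a : Set ℕ) : Set ℕ := {k | (a ∩ Ico (z k) (z (k + 1))).Nonempty}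

theorem col_infinite {z : ℕ → ℕ} (hz : StrictMono z) {a : Set ℕ} (ha : a.Infinite) :
    (col z a).Infinite := by
  intro hfin
  apply ha
  have : a ⊆ Iio (z 0) ∪ ⋃ k ∈ col z a, Ico (z k) (z (k + 1)) := by
    intro n hn
    rcases lt_or_ge n (z 0) with h | h
    · exact Or.inl h
    · obtain ⟨k, h1, h2⟩ := exists_index hz h
      exact Or.inr (mem_iUnion₂.2 ⟨k, ⟨n, hn, h1, h2⟩, h1, h2⟩)
  exact ((finite_Iio _).union (hfin.biUnion fun k _ => finite_Ico _ _)).subset this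

theorem centered_col {ι : Type} {A : ι → Set ℕ} (hA : Centered A) {z : ℕ → ℕ}
    (hz : StrictMono z) : Centered fun i => col z (A i) := by
  intro F
  refine (col_infinite hz (hA F)).mono ?_
  rintro k ⟨n, hn, hk⟩
  simp only [mem_iInter] at hn ⊢
  exact fun i hi => ⟨n, hn i hi, hk⟩

/-- the union of the intervals with index in `T` -/
def blow (z : ℕ → ℕ) (T : Set ℕ) : Set ℕ := ⋃ k ∈ T, Ico (z k) (z (k + 1))

theorem mem_blow {z : ℕ → ℕ} (hz : StrictMono z) {T : Set ℕ} {n k : ℕ} (h1 : z k ≤ n)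
    (h2 : n < z (k + 1)) : n ∈ blow z T ↔ k ∈ T := by
  constructor
  · intro h
    obtain ⟨m, hm, h3, h4⟩ := mem_iUnion₂.1 h
    exact index_unique hz h3 h4 h1 h2 ▸ hm
  · intro h
    exact mem_iUnion₂.2 ⟨k, h, h1, h2⟩

/-- if every member of a base contains, after collapsing, almost a member of the family, then for
every `T`, the family has a member which is almost contained in `T` or almost disjoint -/
theorem dicho {ι : Type} {A : ι → Set ℕ} {W : Ultrafilter ℕ} {B : Set (Set ℕ)}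
    (hB : IsBase W B) {z : ℕ → ℕ} (hz : StrictMono z)
    (h : ∀ b ∈ B, ∃ i N, ∀ k, N ≤ k →
      (A i ∩ Ico (z k) (z (k + 1))).Nonempty → (b ∩ Ico (z k) (z (k + 1))).Nonempty)
    (T : Set ℕ) : ∃ i, (col z (A i) ∩ T).Finite ∨ (col z (A i) \ T).Finite := by
  by_cases hT : blow z T ∈ W
  · obtain ⟨b, hb, hbT⟩ := hB.2 _ hT
    obtain ⟨i, N, hi⟩ := h b hb
    refine ⟨i, Or.inr ((finite_Iio N).subset ?_)⟩
    rintro k ⟨h1, h2⟩
    by_contra h3
    simp only [mem_Iio, not_lt] at h3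
    obtain ⟨n, hn, h4, h5⟩ := hi k h3 h1
    exact h2 ((mem_blow hz h4 h5).1 (hbT hn))
  · obtain ⟨b, hb, hbT⟩ := hB.2 _ (Ultrafilter.compl_mem_iff_notMem.2 hT)
    obtain ⟨i, N, hi⟩ := h b hb
    refine ⟨i, Or.inl ((finite_Iio N).subset ?_)⟩
    rintro k ⟨h1, h2⟩
    by_contra h3
    simp only [mem_Iio, not_lt] at h3
    obtain ⟨n, hn, h4, h5⟩ := hi k h3 h1
    exact hbT hn ((mem_blow hz h4 h5).2 h2)

/-- under `𝔲 < 𝔤` the covers of the good sets are feeble -/
theorem feeble_of_good (hug : ultraNumber < groupNumber) {Y : Set ℝ} (hY : Good Y)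
    {O : ℕ → Set ℝ} (hO : ∀ n, IsOpen (O n))
    (hc : ∀ F : Set ℝ, F.Finite → F ⊆ Y → {n | F ⊆ O n}.Infinite) :
    ∃ p : ℕ → ℕ, StrictMono p ∧ p 0 = 0 ∧
      ∀ x ∈ Y, {n | {k | x ∈ O k} ∩ Ico (p n) (p (n + 1)) = ∅}.Finite := by
  by_contra hcon
  have hNF : NF (fun x : Y => {n | x.1 ∈ O n}) := by
    intro p hp hp0
    by_contra h
    push Not at h
    exact hcon ⟨p, hp, hp0, fun x hx => h ⟨x, hx⟩⟩
  obtain ⟨W, B, hW, hB, hBc⟩ := exists_base
  obtain ⟨z, hz, hzb⟩ := exists_Z hNF hW hB (by rw [hBc]; exact hug)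
  obtain ⟨T, hT⟩ := hY (fun k => ⋃ n ∈ Ico (z k) (z (k + 1)), O n)
    (fun k => isOpen_biUnion fun n _ => hO n) (by
      intro F hF hFY
      refine (col_infinite hz (hc F hF hFY)).mono ?_
      rintro k ⟨n, hn, hk⟩
      exact fun x hx => mem_iUnion₂.2 ⟨n, hk, hn hx⟩)
  have hmem : ∀ x k, x ∈ ⋃ n ∈ Ico (z k) (z (k + 1)), O n ↔ k ∈ col z {n | x ∈ O n} := by
    intro x k
    constructor
    · intro h
      obtain ⟨n, hn, hx⟩ := mem_iUnion₂.1 h
      exact ⟨n, hx, hn⟩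
    · rintro ⟨n, hx, hn⟩
      exact mem_iUnion₂.2 ⟨n, hn, hx⟩
  obtain ⟨x, hx | hx⟩ := dicho hB hz hzb T
  · refine (hT x.1 x.2).1 (hx.subset ?_)
    rintro k ⟨h1, h2⟩
    exact ⟨(hmem _ _).1 h2, h1⟩
  · refine (hT x.1 x.2).2 (hx.subset ?_)
    rintro k ⟨h1, h2⟩
    exact ⟨(hmem _ _).1 h2, h1⟩

/-! ### families of fewer than `𝔲` functions -/

/-- the groupwise dense family attached to a function -/
def Gf (f : ℕ → ℕ) : Set (Set ℕ) := {Z | Z.Infinite ∧ {k | Z ∩ Ico k (f k) = ∅}.Infinite}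

theorem groupwise_Gf (f : ℕ → ℕ) : Groupwise (Gf f) := by
  refine ⟨fun Z hZ => hZ.1, ?_, ?_⟩
  · rintro Z ⟨-, h⟩ B hB hBZ
    obtain ⟨M, hM⟩ := hBZ.bddAbove
    refine ⟨hB, (h.sdiff (finite_Iic M)).mono ?_⟩
    rintro k ⟨h1, h2⟩
    simp only [mem_Iic, not_le] at h2
    rw [mem_setOf_eq] at h1 ⊢
    rw [← subset_empty_iff, ← h1]
    rintro n ⟨hn, h3, h4⟩
    refine ⟨?_, h3, h4⟩
    by_contra hnZ
    exact absurd (hM ⟨hn, hnZ⟩) (not_le.2 (h2.trans_le h3))
  · intro p hp hp0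
    let c : ℕ → ℕ := fun j => Nat.rec 0 (fun _ m => m + 1 + f (p (m + 1))) j
    have hc : ∀ j, c (j + 1) = c j + 1 + f (p (c j + 1)) := fun j => rfl
    have hcm : StrictMono c := strictMono_nat_of_lt_succ fun j => by
      rw [hc]
      omega
    refine ⟨range c, infinite_range_of_injective hcm.injective, ?_, ?_⟩
    · refine (infinite_range_of_injective (hp.injective.comp hcm.injective)).mono ?_
      rintro _ ⟨j, rfl⟩
      exact mem_iUnion₂.2 ⟨c j, ⟨j, rfl⟩, le_rfl, hp (Nat.lt_succ_self _)⟩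
    · have hinj : Function.Injective fun j => p (c j + 1) := by
        intro a b h
        have := hp.injective h
        exact hcm.injective (by omega)
      refine (infinite_range_of_injective hinj).mono ?_
      rintro _ ⟨j, rfl⟩
      rw [mem_setOf_eq, ← subset_empty_iff]
      rintro n ⟨hn, h3, h4⟩
      obtain ⟨_, ⟨i, rfl⟩, h5, h6⟩ := mem_iUnion₂.1 hn
      beta_reduce at h3 h4
      rcases le_or_gt i j with h | h
      · have := hp.monotone (show c i + 1 ≤ c j + 1 by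
          have := hcm.monotone h
          omega)
        omega
      · have h7 : f (p (c j + 1)) ≤ c (j + 1) := by
          rw [hc]
          omega
        have h8 := hcm.monotone (show j + 1 ≤ i from h)
        have h9 := hp.id_le (c i)
        simp only [id] at h9
        omega

theorem exists_not_dominated {ι : Type} (f : ι → ℕ → ℕ) (h : #ι < groupNumber) :
    ∃ g : ℕ → ℕ, ∀ i, {n | f i n < g n}.Infinite := by
  obtain ⟨Z, hZ⟩ := inter_nonempty (𝒢 := range fun i => Gf (f i)) (by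
    rintro _ ⟨i, rfl⟩
    exact groupwise_Gf _) (mk_range_le.trans_lt h)
  rcases isEmpty_or_nonempty ι with he | ⟨⟨i0⟩⟩
  · exact ⟨id, fun i => he.elim i⟩
  have hZi : Z.Infinite := (hZ _ ⟨i0, rfl⟩).1
  have hnext : ∀ k, ∃ m ∈ Z, k ≤ m ∧ ∀ m' ∈ Z, k ≤ m' → m ≤ m' := by
    intro k
    have hne : ∃ m, m ∈ Z ∧ k ≤ m := by
      obtain ⟨m, hm, hkm⟩ := hZi.exists_gt k
      exact ⟨m, hm, hkm.le⟩
    classical
    exact ⟨Nat.find hne, (Nat.find_spec hne).1, (Nat.find_spec hne).2,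
      fun m' h1 h2 => Nat.find_min' hne ⟨h1, h2⟩⟩
  choose nx h1 h2 h3 using hnext
  refine ⟨fun k => nx k + 1, fun i => ?_⟩
  refine (hZ _ ⟨i, rfl⟩).2.mono ?_
  intro k hk
  rw [mem_setOf_eq] at hk ⊢
  by_contra hcon
  beta_reduce at hcon
  have : nx k ∈ Z ∩ Ico k (f i k) := ⟨h1 k, h2 k, by omega⟩
  rw [hk] at this
  exact this

theorem aleph0_lt_ultra : ℵ₀ < ultraNumber := by
  have h := (aleph_one_le_add.trans add_le_cof).trans (Ordinal.cof_ord_le ultraNumber)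
  exact aleph_one_le_iff.1 h

/-- under `𝔲 < 𝔤` fewer than `𝔲` functions are bounded -/
theorem bounded_of_lt (hug : ultraNumber < groupNumber) {ι : Type} (f : ι → ℕ → ℕ)
    (h : #ι < ultraNumber) : ∃ g : ℕ → ℕ, ∀ i, ∃ N, ∀ n, N ≤ n → f i n ≤ g n := by
  classical
  by_contra hcon
  rcases isEmpty_or_nonempty ι with he | hne
  · exact hcon ⟨id, fun i => he.elim i⟩
  have hcard : #(Finset ι) < ultraNumber := by
    rcases finite_or_infinite ι with hf | hi
    · have := Fintype.ofFinite ι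
      exact (lt_aleph0_of_finite _).trans aleph0_lt_ultra
    · rwa [mk_finset_of_infinite]
  let F : Finset ι → ℕ → ℕ := fun s n => ∑ i ∈ s, ∑ m ∈ Finset.range (n + 1), f i m
  have hFmono : ∀ s, Monotone (F s) := by
    intro s n m hnm
    refine Finset.sum_le_sum fun i _ => ?_
    exact Finset.sum_le_sum_of_subset (Finset.range_mono (by omega))
  have hFs : ∀ s t n, s ⊆ t → F s n ≤ F t n := by
    intro s t n hst
    exact Finset.sum_le_sum_of_subset hst
  have hFf : ∀ i n, f i n ≤ F {i} n := by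
    intro i n
    simp only [F, Finset.sum_singleton]
    exact Finset.single_le_sum (f := fun m => f i m) (fun _ _ => Nat.zero_le _)
      (Finset.mem_range.2 (Nat.lt_succ_self n))
  obtain ⟨g, hg⟩ := exists_not_dominated F (hcard.trans hug)
  let A : Finset ι → Set ℕ := fun s => {n | F s n < g n}
  have hA : Centered A := by
    intro 𝒮
    refine (hg (𝒮.biUnion id)).mono ?_
    intro n hn
    simp only [mem_iInter]
    intro s hs
    exact lt_of_le_of_lt (hFs s _ n (Finset.subset_biUnion_of_mem id hs)) hn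
  have hNF : NF A := by
    intro p hp hp0
    by_contra hfe
    push Not at hfe
    apply hcon
    refine ⟨fun k => ∑ j ∈ Finset.range (p (k + 2)), g j, fun i => ?_⟩
    obtain ⟨M, hM⟩ := (hfe {i}).bddAbove
    refine ⟨p (M + 2), fun k hk => ?_⟩
    obtain ⟨n, hn1, hn2⟩ := exists_index hp (show p 0 ≤ k by omega)
    have hnM : M < n := by
      by_contra hle
      have := hp.monotone (show n + 1 ≤ M + 2 by omega)
      omega
    have hne : (A {i} ∩ Ico (p (n + 1)) (p (n + 1 + 1))).Nonempty := by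
      rw [nonempty_iff_ne_empty]
      intro he
      have := hM (show n + 1 ∈ _ from he)
      omega
    obtain ⟨m, hm, hm1, hm2⟩ := hne
    have hnk : n ≤ k := (hp.id_le n).trans hn1
    have h1 : f i k ≤ F {i} m := (hFf i k).trans (hFmono _ (by omega))
    have h2 : F {i} m < g m := hm
    have h3 : g m ≤ ∑ j ∈ Finset.range (p (k + 2)), g j :=
      Finset.single_le_sum (f := g) (fun _ _ => Nat.zero_le _) (Finset.mem_range.2
        (hm2.trans_le (hp.monotone (by omega))))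
    exact h1.trans (h2.le.trans h3)
  obtain ⟨W, B, hW, hB, hBc⟩ := exists_base
  obtain ⟨z, hz, hzb⟩ := exists_Z hNF hW hB (by rw [hBc]; exact hug)
  have hlast := ultra_le_of_not_split (centered_col hA hz) (by
    rintro ⟨T, hT⟩
    obtain ⟨s, hs | hs⟩ := dicho hB hz hzb T
    · exact (hT s).1 hs
    · exact (hT s).2 hs)
  refine absurd hlast (not_le.2 ?_)
  exact mul_lt_of_lt aleph0_le_ultra hcard aleph0_lt_ultra

/-- a family which is feeble with a common bound can be split -/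
theorem split_of_bound {ι : Type} {A : ι → Set ℕ} {g : ℕ → ℕ}
    (h : ∀ i, ∃ N, ∀ k, N ≤ k → (A i ∩ Ico k (g k)).Nonempty) :
    ∃ T : Set ℕ, ∀ i, (A i ∩ T).Infinite ∧ (A i \ T).Infinite := by
  let q : ℕ → ℕ := fun j => Nat.rec 0 (fun _ m => max (m + 1) (g m)) j
  have hq : ∀ j, q (j + 1) = max (q j + 1) (g (q j)) := fun j => rfl
  have hqm : StrictMono q := strictMono_nat_of_lt_succ fun j => by
    rw [hq]
    omega
  have hmeet : ∀ i, ∃ N, ∀ j, N ≤ j → (A i ∩ Ico (q j) (q (j + 1))).Nonempty := by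
    intro i
    obtain ⟨N, hN⟩ := h i
    refine ⟨N, fun j hj => ?_⟩
    obtain ⟨n, hn, h1, h2⟩ := hN (q j) (hj.trans (hqm.id_le j))
    exact ⟨n, hn, h1, h2.trans_le (by rw [hq]; exact le_max_right _ _)⟩
  refine ⟨blow q {j | j % 2 = 0}, fun i => ?_⟩
  obtain ⟨N, hN⟩ := hmeet i
  have key : ∀ m, ∃ j, N ≤ 2 * j ∧ m < q (2 * j) := by
    intro m
    refine ⟨max N (m + 1), by omega, ?_⟩
    have := hqm.id_le (2 * max N (m + 1))
    simp only [id] at this
    omega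
  constructor
  · refine infinite_of_forall_exists_gt fun m => ?_
    obtain ⟨j, hj1, hj2⟩ := key m
    obtain ⟨n, hn, h1, h2⟩ := hN (2 * j) hj1
    exact ⟨n, ⟨hn, (mem_blow hqm h1 h2).2 (by simp)⟩, by omega⟩
  · refine infinite_of_forall_exists_gt fun m => ?_
    obtain ⟨j, hj1, hj2⟩ := key m
    obtain ⟨n, hn, h1, h2⟩ := hN (2 * j + 1) (by omega)
    have h3 := hqm (show 2 * j < 2 * j + 1 by omega)
    refine ⟨n, ⟨hn, fun h => ?_⟩, by omega⟩
    have := (mem_blow (k := 2 * j + 1) hqm h1 h2).1 h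
    simp only [mem_setOf_eq] at this
    omega

/-- under `𝔲 < 𝔤` fewer than `𝔲` good sets have a good union -/
theorem good_sUnion (hug : ultraNumber < groupNumber) {F : Set (Set ℝ)}
    (hF : ∀ X ∈ F, Good X) (hlt : #F < ultraNumber) : Good (⋃₀ F) := by
  intro O hO hc
  have h1 : ∀ X : F, ∃ p : ℕ → ℕ, StrictMono p ∧ p 0 = 0 ∧
      ∀ x ∈ X.1, {n | {k | x ∈ O k} ∩ Ico (p n) (p (n + 1)) = ∅}.Finite := by
    intro X
    exact feeble_of_good hug (hF X.1 X.2) hO fun G hG hGX =>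
      hc G hG (hGX.trans (subset_sUnion_of_mem X.2))
  choose p hp hp0 hpx using h1
  obtain ⟨g, hg⟩ := bounded_of_lt hug (fun (X : F) k => p X (k + 2)) hlt
  obtain ⟨T, hT⟩ := split_of_bound (A := fun x : ⋃₀ F => {k | x.1 ∈ O k}) (g := g) (by
    rintro ⟨x, X, hX, hx⟩
    obtain ⟨N, hN⟩ := hg ⟨X, hX⟩
    obtain ⟨M, hM⟩ := (hpx ⟨X, hX⟩ x hx).bddAbove
    refine ⟨max N (p ⟨X, hX⟩ (M + 2)), fun k hk => ?_⟩
    obtain ⟨n, hn1, hn2⟩ := exists_index (hp ⟨X, hX⟩) (show p ⟨X, hX⟩ 0 ≤ k by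
      rw [hp0]
      omega)
    have hnM : M < n := by
      by_contra hle
      have := (hp ⟨X, hX⟩).monotone (show n + 1 ≤ M + 2 by omega)
      omega
    have hne : ({k | x ∈ O k} ∩ Ico (p ⟨X, hX⟩ (n + 1)) (p ⟨X, hX⟩ (n + 1 + 1))).Nonempty := by
      rw [nonempty_iff_ne_empty]
      intro he
      have := hM (show n + 1 ∈ _ from he)
      omega
    obtain ⟨m, hm, hm1, hm2⟩ := hne
    refine ⟨m, hm, by omega, ?_⟩
    have hnk : n ≤ k := ((hp ⟨X, hX⟩).id_le n).trans hn1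
    have h2 := (hp ⟨X, hX⟩).monotone (show n + 1 + 1 ≤ k + 2 by omega)
    have h3 := hN k (by omega)
    beta_reduce at h3
    omega)
  refine ⟨T, fun x hx => ⟨(hT ⟨x, hx⟩).1.mono ?_, (hT ⟨x, hx⟩).2.mono ?_⟩⟩
  · rintro n ⟨h2, h3⟩
    exact ⟨h3, h2⟩
  · rintro n ⟨h2, h3⟩
    exact ⟨h3, h2⟩

theorem add_eq (hug : ultraNumber < groupNumber) : addSplit = ultraNumber := by
  refine le_antisymm (add_le_cof.trans (Ordinal.cof_ord_le ultraNumber)) ?_
  by_contra hlt
  rw [not_le] at hlt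
  obtain ⟨F, hF, hS, hn⟩ := addSplit_mem
  rw [← hF] at hlt
  exact hn (splits_of_good (good_sUnion hug (fun X hX => good_of_splits (hS X hX)) hlt))

end Pool.Agent.N641.Split
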