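import Pool.Agent.N641.Split.Basic

set_option autoImplicit false

namespace Pool.Agent.N641.Split

open Set Cardinal Filter

/-- finite intersections are infinite -/
def Centered {ι : Type} (A : ι → Set ℕ) : Prop := ∀ F : Finset ι, (⋂ i ∈ F, A i).Infinite

/-- the filter generated by a centered family and the cofinite sets -/
def cfil {ι : Type} (A : ι → Set ℕ) : Filter ℕ where
  sets := {s | ∃ F : Finset ι, ((⋂ i ∈ F, A i) \ s).Finite}
  univ_sets := ⟨∅, by simp⟩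
  sets_of_superset := by
    rintro x y ⟨F, hF⟩ hxy
    exact ⟨F, hF.subset (sdiff_subset_sdiff_right hxy)⟩
  inter_sets := by
    classical
    rintro x y ⟨F, hF⟩ ⟨F', hF'⟩
    refine ⟨F ∪ F', (hF.union hF').subset ?_⟩
    rintro n ⟨h1, h2⟩
    simp only [Finset.mem_union, mem_iInter] at h1
    by_cases hx : n ∈ x
    · exact Or.inr ⟨by
        simp only [mem_iInter]
        exact fun i hi => h1 i (Or.inr hi), fun hy => h2 ⟨hx, hy⟩⟩
    · exact Or.inl ⟨by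
        simp only [mem_iInter]
        exact fun i hi => h1 i (Or.inl hi), hx⟩

theorem exists_ultra {ι : Type} {A : ι → Set ℕ} (hA : Centered A) :
    ∃ W : Ultrafilter ℕ, (∀ n : ℕ, {n} ∉ W) ∧ (∀ i, A i ∈ W) ∧
      ∀ F : Finset ι, (⋂ i ∈ F, A i) ∈ W := by
  haveI : (cfil A).NeBot := by
    rw [neBot_iff]
    intro h
    have h1 : (∅ : Set ℕ) ∈ cfil A := by
      rw [h]
      exact mem_bot
    obtain ⟨F, hF⟩ := h1
    rw [sdiff_empty] at hF
    exact hA F hF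
  have hle : (Ultrafilter.of (cfil A) : Filter ℕ) ≤ cfil A := Ultrafilter.of_le _
  have hF : ∀ F : Finset ι, (⋂ i ∈ F, A i) ∈ Ultrafilter.of (cfil A) := by
    intro F
    exact hle ⟨F, by simp⟩
  refine ⟨Ultrafilter.of (cfil A), ?_, ?_, hF⟩
  · intro n hn
    have : ({n}ᶜ : Set ℕ) ∈ cfil A := ⟨∅, (finite_singleton n).subset (by
      rintro m ⟨-, h⟩
      simpa using h)⟩
    have h2 := hle this
    exact (Ultrafilter.compl_mem_iff_notMem.1 h2) hn
  · intro i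
    have := hF {i}
    simpa using this

/-- members of a nonprincipal ultrafilter are infinite -/
theorem inf_of_mem {W : Ultrafilter ℕ} (hW : ∀ n : ℕ, {n} ∉ W) {s : Set ℕ} (hs : s ∈ W) :
    s.Infinite := by
  intro hfin
  rcases W.eq_pure_of_finite_mem hfin hs with ⟨x, -, hx⟩
  exact hW x (by
    rw [hx]
    exact mem_pure.2 rfl)

theorem diff_fin_mem {W : Ultrafilter ℕ} (hW : ∀ n : ℕ, {n} ∉ W) {s t : Set ℕ} (hs : s ∈ W)
    (h : (s \ t).Finite) : t ∈ W := by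
  by_contra ht
  have h1 := Ultrafilter.compl_mem_iff_notMem.2 ht
  exact inf_of_mem hW (inter_mem hs h1) h

/-- a family which cannot be split gives a base -/
theorem ultra_le_of_unsplit {ι : Type} {A : ι → Set ℕ} (W : Ultrafilter ℕ)
    (hW : ∀ n : ℕ, {n} ∉ W) (hA : ∀ i, A i ∈ W)
    (h : ∀ T ∈ W, ∃ i, (A i \ T).Finite) : ultraNumber ≤ #ι * ℵ₀ := by
  classical
  let g : ι × Finset ℕ → Set ℕ := fun p => A p.1 \ (p.2 : Set ℕ)
  have hb : IsBase W (range g) := by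
    refine ⟨?_, ?_⟩
    · rintro _ ⟨⟨i, F⟩, rfl⟩
      refine diff_fin_mem hW (hA i) (F.finite_toSet.subset ?_)
      rintro n ⟨h1, h2⟩
      by_contra h3
      exact h2 ⟨h1, h3⟩
    · intro s hs
      obtain ⟨i, hi⟩ := h s hs
      refine ⟨g (i, hi.toFinset), ⟨_, rfl⟩, ?_⟩
      rintro n ⟨h1, h2⟩
      by_contra h3
      exact h2 (by simpa using ⟨h1, h3⟩)
  refine (csInf_le' ⟨W, range g, hW, hb, rfl⟩ : ultraNumber ≤ #(range g)).trans ?_
  refine mk_range_le.trans ?_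
  rw [mk_prod, lift_id, lift_id]
  exact mul_le_mul_right (by simp) _

theorem ultra_le_of_not_split {ι : Type} {A : ι → Set ℕ} (hA : Centered A)
    (h : ¬ ∃ T : Set ℕ, ∀ i, (A i ∩ T).Infinite ∧ (A i \ T).Infinite) :
    ultraNumber ≤ #ι * ℵ₀ := by
  obtain ⟨W, hW, hAW, -⟩ := exists_ultra hA
  refine ultra_le_of_unsplit W hW hAW fun T hT => ?_
  push Not at h
  obtain ⟨i, hi⟩ := h T
  exact ⟨i, hi (inf_of_mem hW (inter_mem (hAW i) hT))⟩

/-- from sets of reals to families -/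
theorem centered_of {Y : Set ℝ} {O : ℕ → Set ℝ}
    (hc : ∀ F : Set ℝ, F.Finite → F ⊆ Y → {n | F ⊆ O n}.Infinite) :
    Centered (fun x : Y => {n | x.1 ∈ O n}) := by
  classical
  intro F
  refine (hc (Subtype.val '' (F : Set Y)) (F.finite_toSet.image _) (by
    rintro _ ⟨x, -, rfl⟩
    exact x.2)).mono ?_
  intro n hn
  simp only [mem_iInter]
  exact fun i hi => hn ⟨i, hi, rfl⟩

theorem good_of_lt {Y : Set ℝ} (h : #Y < ultraNumber) : Good Y := by
  intro O hO hc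
  by_contra hcon
  have hns : ¬ ∃ T : Set ℕ, ∀ x : Y, ({n | x.1 ∈ O n} ∩ T).Infinite ∧
      ({n | x.1 ∈ O n} \ T).Infinite := by
    rintro ⟨T, hT⟩
    refine hcon ⟨T, fun x hx => ⟨(hT ⟨x, hx⟩).1.mono ?_, (hT ⟨x, hx⟩).2.mono ?_⟩⟩
    · rintro n ⟨h1, h2⟩
      exact ⟨h2, h1⟩
    · rintro n ⟨h1, h2⟩
      exact ⟨h2, h1⟩
  have hY : Y.Infinite := by
    intro hfin
    obtain ⟨T, h1, h2⟩ := split_infinite (hc Y hfin Subset.rfl)
    refine hcon ⟨T, fun x hx => ⟨h1.mono ?_, h2.mono ?_⟩⟩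
    · rintro n ⟨h3, h4⟩
      exact ⟨h4, h3 hx⟩
    · rintro n ⟨h3, h4⟩
      exact ⟨h4, h3 hx⟩
  have h1 := ultra_le_of_not_split (centered_of hc) hns
  have : Infinite Y := hY.to_subtype
  rw [mul_aleph0_eq (aleph0_le_mk Y)] at h1
  exact absurd h (not_lt.2 h1)

/-- there is a base of a nonprincipal ultrafilter of the least size -/
theorem exists_base : ∃ (W : Ultrafilter ℕ) (B : Set (Set ℕ)), (∀ n : ℕ, {n} ∉ W) ∧
    IsBase W B ∧ #B = ultraNumber := by
  have h : {κ | ∃ (W : Ultrafilter ℕ) (B : Set (Set ℕ)), (∀ n : ℕ, {n} ∉ W) ∧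
      IsBase W B ∧ #B = κ}.Nonempty := by
    refine ⟨_, hyperfilter ℕ, {s | s ∈ hyperfilter ℕ}, ?_, ⟨fun b hb => hb, fun s hs =>
      ⟨s, hs, Subset.rfl⟩⟩, rfl⟩
    intro n hn
    exact notMem_hyperfilter_of_finite (finite_singleton n) hn
  exact csInf_mem h

theorem aleph0_le_ultra : ℵ₀ ≤ ultraNumber := by
  obtain ⟨W, B, hW, hB, hBc⟩ := exists_base
  rw [← hBc]
  by_contra hlt
  have hfin : B.Finite := by
    rw [not_le, lt_aleph0_iff_set_finite] at hlt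
    exact hlt
  have h1 : (⋂₀ B) ∈ W := (Filter.sInter_mem hfin).2 fun b hb => hB.1 b hb
  obtain ⟨n, hn⟩ := (inf_of_mem hW h1).nonempty
  obtain ⟨b, hb, hbn⟩ := hB.2 {n}ᶜ (Ultrafilter.compl_mem_iff_notMem.2 (hW n))
  exact hbn (hn b hb) rfl

end Pool.Agent.N641.Split
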